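import Pool.Agent.N522.HI.Defs

/-!
# MP_32d917_al: the isomorphism problem for HHGs and semi-decidable non-isomorphism
-/

open Pool.Agent.N522.HI

/-- The isomorphism problem for hierarchically hyperbolic groups is solvable if and only if there is
a semi-algorithm that halts on the pairs of non-isomorphic hierarchically hyperbolic groups with
infinitely many ends and the same finite quotients, and on no pair of isomorphic ones. -/
theorem Pool.Agent.Results.MP_32d917_al.ProfinitelyEquivalentPairs.result :
    ∀ T : Theory, Facts T → (Q1 T ↔ Detect T) :=
  fun _ F => ⟨detect_of_q1, q1_of_detect F⟩
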